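import Pool.Agent.H44.GT.Targets2

/-!
# F_UB: unbounded scales in the leaf coordinates and on the surface (helper37)
-/

set_option autoImplicit false

namespace Pool.Agent.H37.GD

open Pool.Agent.H44.DU

/-- The steps of a word. -/
lemma steps_of_run {n : ℕ} {S : Surf n} {t : ℝ} (hS : S.Gd t) (hST : T_ST)
    (w : List (Side n)) : ∀ (r : Side n) (x : ℝ), S.Run t (r :: w) x →
    ∃ (z : ℕ → Side n × ℂ) (c : ℕ → ℝ), z 0 = S.th t (r, x) ∧
      (∀ k < w.length, S.Step ((t : ℂ) + Complex.I) (c k) (z k) (z (k + 1))) ∧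
      ∏ k ∈ Finset.range w.length, c k = S.A w := by
  induction w with
  | nil =>
    intro r x _
    exact ⟨fun _ => S.th t (r, x), fun _ => 1, rfl, fun k hk => absurd hk (Nat.not_lt_zero k),
      by simp [Surf.A]⟩
  | cons r' w ih =>
    intro r x h
    rw [Surf.run_cons_cons] at h
    obtain ⟨h1, h2, h3⟩ := h
    obtain ⟨z, c, hz, hs, hp⟩ := ih r' (S.mv t r x) h3
    have h4 : S.InJ t r' (S.mv t r x) := h3.1
    have hst := (hST n S t hS).1 (r, x) (r', S.mv t r x) ⟨h1, h4, h2, rfl⟩
    refine ⟨fun k => Nat.casesOn k (S.th t (r, x)) z, fun k => Nat.casesOn k (S.a r') c, rfl,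
      ?_, ?_⟩
    · intro k hk
      cases k with
      | zero =>
        change S.Step _ (S.a r') (S.th t (r, x)) (z 0)
        rw [hz]
        exact hst
      | succ k =>
        exact hs k (by simpa using hk)
    · rw [List.length_cons, Finset.prod_range_succ']
      change (∏ k ∈ Finset.range w.length, c k) * S.a r' = S.A (r' :: w)
      rw [hp, Surf.A, mul_comm]

theorem pf_F_UB (hST : T_ST) : F_UB := by
  intro n S t hS h C hC
  obtain ⟨M, hM1, hM2⟩ : ∃ M : ℝ, 1 ≤ M ∧ ∀ s : Side n, S.a s ≤ M ∧ (S.a s)⁻¹ ≤ M := by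
    refine ⟨1 + ∑ s : Side n, (S.a s + (S.a s)⁻¹), ?_, fun s => ?_⟩
    · have : 0 ≤ ∑ s : Side n, (S.a s + (S.a s)⁻¹) :=
        Finset.sum_nonneg (fun s _ => by have := S.a_pos s; positivity)
      linarith
    · have h1 : S.a s + (S.a s)⁻¹ ≤ ∑ s : Side n, (S.a s + (S.a s)⁻¹) :=
        Finset.single_le_sum (f := fun s => S.a s + (S.a s)⁻¹)
          (fun s _ => by have := S.a_pos s; positivity) (Finset.mem_univ s)
      have h2 := S.a_pos s
      have h3 : 0 < (S.a s)⁻¹ := by positivity
      exact ⟨by linarith, by linarith⟩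
  have hM0 : 0 < M := by linarith
  have hC1 : 1 ≤ max C 1 := le_max_right _ _
  have hC2 : C ≤ max C 1 := le_max_left _ _
  have hC0 : 0 < max C 1 := by linarith
  have hCM : 1 ≤ max C 1 * M := one_le_mul_of_one_le_of_one_le hC1 hM1
  have hCM0 : 0 < max C 1 * M := by linarith
  obtain ⟨w, x, hr, hw⟩ := h (max C 1 * M) hCM0
  cases w with
  | nil =>
    exfalso
    rw [Surf.A] at hw
    rcases hw with hw | hw
    · linarith
    · have : (max C 1 * M)⁻¹ ≤ 1 := inv_le_one_of_one_le₀ hCM
      linarith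
  | cons r w =>
    obtain ⟨z, c, -, hs, hp⟩ := steps_of_run hS hST w r x hr
    refine ⟨w.length, z, c, hs, ?_⟩
    rw [hp]
    rw [Surf.A] at hw
    have ha := S.a_pos r
    have hA := S.A_pos w
    obtain ⟨hr1, hr2⟩ := hM2 r
    rcases hw with hw | hw
    · left
      have h1 : max C 1 * M < M * S.A w := hw.trans_le (mul_le_mul_of_nonneg_right hr1 hA.le)
      have h2 : max C 1 < S.A w := by
        rw [mul_comm] at h1
        exact lt_of_mul_lt_mul_left h1 hM0.le
      linarith
    · right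
      have h1 : S.a r * S.A w * (max C 1 * M) < 1 := by
        calc S.a r * S.A w * (max C 1 * M) < (max C 1 * M)⁻¹ * (max C 1 * M) :=
              mul_lt_mul_of_pos_right hw hCM0
          _ = 1 := inv_mul_cancel₀ hCM0.ne'
      have h3 : 1 ≤ S.a r * M := by
        calc 1 = S.a r * (S.a r)⁻¹ := (mul_inv_cancel₀ ha.ne').symm
          _ ≤ S.a r * M := mul_le_mul_of_nonneg_left hr2 ha.le
      have h4 : S.A w * C < 1 := by
        calc S.A w * C ≤ S.A w * max C 1 := mul_le_mul_of_nonneg_left hC2 hA.le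
          _ = S.A w * max C 1 * 1 := (mul_one _).symm
          _ ≤ S.A w * max C 1 * (S.a r * M) :=
            mul_le_mul_of_nonneg_left h3 (mul_pos hA hC0).le
          _ = S.a r * S.A w * (max C 1 * M) := by ring
          _ < 1 := h1
      rw [lt_inv_comm₀ hA hC, ← one_div, lt_div_iff₀ hA, mul_comm]
      exact h4

end Pool.Agent.H37.GD
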